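import Pool.Agent.RS.StmtsF

set_option autoImplicit false

namespace Pool.Agent.RS.H3

open MvPolynomial

/-- ROW BND: uniform bounds. -/
theorem bnd (bez : BezStmt) (lmt : LmtStmt) : BndStmt := by
  classical
  choose gB hgB using bez
  have hl : ∀ R c : ℕ, ∃ D' : ℕ, ∀ (E : Type) [Field E] (j : ℕ)
      (q a b : MvPolynomial ℕ E), q.totalDegree ≤ R + (R + 1) * R →
      a.totalDegree ≤ R + (R + 1) * R → b.totalDegree ≤ R + (R + 1) * R →
      j ∈ q.vars → Prime q → ¬ q ∣ b → ∃ a' b' : MvPolynomial ℕ E, a'.totalDegree ≤ D' ∧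
      b'.totalDegree ≤ D' ∧ b' ≠ 0 ∧
      (∀ J : Finset ℕ, q ∈ PJ E J → a ∈ PJ E J → b ∈ PJ E J →
        a' ∈ PJ E (insert j J) ∧ b' ∈ PJ E (insert j J)) ∧
      lam j q c (io E a / (io E q ^ (R + 1) * io E b)) = io E a' / io E b' ∧
      ∀ (L : Type) [Field L] (φ : MvPolynomial ℕ E →+* L), φ b' ≠ 0 →
        atX j φ b ≠ 0 ∧ atX j φ q ≠ 0 ∧ 0 < (atX j φ q).natDegree ∧
        res (atX j φ q) (algebraMap (Polynomial L) (RatFunc L) (Polynomial.X ^ c) *
          (algebraMap (Polynomial L) (RatFunc L) (atX j φ a) /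
            (algebraMap (Polynomial L) (RatFunc L) (atX j φ q) ^ (R + 1) *
              algebraMap (Polynomial L) (RatFunc L) (atX j φ b)))) = φ a' / φ b' :=
    fun R c => lmt (R + (R + 1) * R) (R + 1) c (Nat.succ_pos R)
  choose fL hfL using hl
  refine ⟨fun R => (∑ c ∈ Finset.range ((R + 1) * R), fL R c) + (R + (gB R + R)),
    fun R => gB R + R, fun R => ⟨Nat.le_add_left _ _, Nat.le_add_left _ _⟩, ?_, ?_⟩
  · intro R E _ j q b hq hj hb hdq hdb
    obtain ⟨α, β, ρ, h1, h2, h3, h4, h5, h6, h7⟩ := hgB R E j q b hq hj hb hdq hdb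
    exact ⟨α, β, ρ, h1, h2, h3, h4.trans (Nat.le_add_right _ _), h5.trans (Nat.le_add_right _ _),
      h6.trans (Nat.le_add_right _ _), h7⟩
  · intro R E _ j c q a b hc hdq hda hdb hj hq hb
    obtain ⟨a', b', h1, h2, h3, h4, h5, h6⟩ := hfL R c E j q a b
      (hdq.trans (Nat.le_add_right _ _)) hda (hdb.trans (Nat.le_add_right _ _)) hj hq hb
    have hle : fL R c ≤ (∑ c ∈ Finset.range ((R + 1) * R), fL R c) + (R + (gB R + R)) :=
      (Finset.single_le_sum (f := fun c => fL R c) (fun i _ => Nat.zero_le _)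
        (Finset.mem_range.2 hc)).trans (Nat.le_add_right _ _)
    exact ⟨a', b', h1.trans hle, h2.trans hle, h3, h4, h5, h6⟩

end Pool.Agent.RS.H3
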